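import Pool.Agent.H20.Flow4

namespace Pool.Agent.Results.MP_75c11f_co.Super

theorem result : ∃ c₁ c₂ : ℝ, 0 < c₁ ∧ 0 < c₂ ∧ ∃ k₀ : ℕ, ∀ k : ℕ, k₀ ≤ k →
    ∀ U : Finset (Fin k → ℕ), (∀ l ∈ U, Monotone l ∧ ∀ i, l i ≤ k) →
      c₁ * (k : ℝ) ^ (-(3 / 2) : ℝ) * ((2 * k).choose k : ℝ) ≤ (U.card : ℝ) →
      c₂ * (k : ℝ) ^ 2 * (U.card : ℝ) ≤
        (((U ×ˢ U).filter fun q => q.1 ≠ q.2 ∧ ∀ i, q.1 i ≤ q.2 i).card : ℝ) := by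
  refine ⟨24 * 64 ^ 3, 1 / (16 * 256 ^ 3), by norm_num, by norm_num, 128, fun k hk U hU hc => ?_⟩
  have k0 : (0 : ℝ) < k := by exact_mod_cast (by omega : 0 < k)
  refine H20.Flow.fin k hk U hU ((k : ℝ) ^ (3 / 2 : ℝ)) (by positivity) ?_ ?_
  · rw [← Real.rpow_natCast, ← Real.rpow_mul k0.le, ← Real.rpow_natCast]; norm_num
  · rwa [← Real.rpow_neg k0.le]

end Pool.Agent.Results.MP_75c11f_co.Super
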